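import Pool.Agent.Lib_MP_112ba8_t.FinalT
import Pool.Agent.Lib_MP_112ba8.Final

/-!
The sixth moment of the Riemann zeta function on the critical line is, unconditionally, at least
`16809529/19267584 - o(1) = 0.8724... - o(1)` times the main term `a_3 f_3 (log T)^9` conjectured
by Keating and Snaith.
-/

namespace Pool.Agent.Results.MP_6a632e_nt.SixthMomentKS

open Filter Topology Pool.Agent.ZetaMoment Pool.Agent.EvenMoment

/-- The Euler factor at `p` of the arithmetic factor `a_k`, that is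
`(1 - 1/p)^(k^2) * ∑_{m ≥ 0} binom(m+k-1, m)^2 / p^m`. -/
noncomputable def localFactor (k : ℕ) (p : Nat.Primes) : ℝ :=
  (1 - 1 / ((p : ℕ) : ℝ)) ^ (k ^ 2) *
    ∑' m : ℕ, ((m + k - 1).choose m : ℝ) ^ 2 / ((p : ℕ) : ℝ) ^ m

/-- The arithmetic factor `a_k = ∏_p (1 - 1/p)^(k^2) ∑_{m ≥ 0} binom(m+k-1, m)^2 / p^m`. -/
noncomputable def arithFactor (k : ℕ) : ℝ := ∏' p : Nat.Primes, localFactor k p

/-- The random matrix factor `f_k = ∏_{j=0}^{k-1} j!/(j+k)!`. -/
noncomputable def rmtFactor (k : ℕ) : ℝ :=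
  ∏ j ∈ Finset.range k, ((j.factorial : ℝ) / ((j + k).factorial : ℝ))

/-- The `2k`-th moment `M_k(T) = (1/T) ∫_0^T |ζ(1/2+it)|^(2k) dt`. -/
noncomputable def zetaMoment (k : ℕ) (T : ℝ) : ℝ :=
  (1 / T) * ∫ t in (0 : ℝ)..T, ‖riemannZeta (1 / 2 + t * Complex.I)‖ ^ (2 * k)

lemma arithFactor_eq (k : ℕ) : arithFactor k = ar k := (aG_hasProd k).tprod_eq

lemma rmt_three : rmtFactor 3 = 42 / (Nat.factorial 9) := by
  simp only [rmtFactor, Finset.prod_range_succ, Finset.prod_range_zero]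
  norm_num [Nat.factorial]

/-- The product defining `a_3` converges to a positive number, and for every real
`c < 16809529 / 19267584` there is `T₀` such that for all `T ≥ T₀`, `M_3(T) ≥ c * a_3 * f_3 * (log T)^9`. -/
theorem result :
    (Multipliable (localFactor 3) ∧ 0 < arithFactor 3) ∧
    ∀ c : ℝ, c < 16809529 / 19267584 → ∃ T₀ : ℝ, ∀ T : ℝ, T₀ ≤ T →
      c * (arithFactor 3 * rmtFactor 3 * Real.log T ^ 9) ≤ zetaMoment 3 T := by
  refine ⟨⟨(aG_hasProd 3).multipliable, ?_⟩, ?_⟩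
  · rw [arithFactor_eq]; exact Real.exp_pos _
  intro c hc
  obtain ⟨T₀, hT₀⟩ := eventually_atTop.mp (Pool.Agent.SixT.const_t (A := 42 * c) (by linarith))
  refine ⟨T₀, fun T hT => ?_⟩
  rw [arithFactor_eq, rmt_three]
  refine le_trans (le_of_eq ?_) (hT₀ T hT)
  ring

end Pool.Agent.Results.MP_6a632e_nt.SixthMomentKS
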